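import Mathlib
import Pool.Agent.MP_e18349_al.Defs
import Pool.Agent.MP_e18349_al.Mg.Main

namespace Pool.Agent.Results.MP_e18349_al.AxesRing

open CategoryTheory Pool.Agent.MP_e18349_al

universe w

/-- There is a commutative ring `R` lying in the localizing subcategory of `D(R)` generated by
its residue fields, whose prime spectrum is not weakly noetherian. -/
theorem result : ∃ (R : Type) (_ : CommRing R),
    (∀ [HasDerivedCategory.{w} (ModuleCat.{0} R)]
      (P : ObjectProperty (DerivedCategory (ModuleCat.{0} R))), IsLocalizing P →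
      (∀ p : PrimeSpectrum R, P ((DerivedCategory.singleFunctor (ModuleCat.{0} R) 0).obj
        (ModuleCat.of R p.asIdeal.ResidueField))) →
      P ((DerivedCategory.singleFunctor (ModuleCat.{0} R) 0).obj (ModuleCat.of R R))) ∧
    ¬ WeaklyNoetherian (PrimeSpectrum R) := by
  refine ⟨Axes, inferInstance, fun P hP h => good_axes (good_of_isLocalizing P hP) h, fun h => ?_⟩
  obtain ⟨_, _, ⟨S₁, h₁, rfl⟩, ⟨S₂, h₂, rfl⟩, h⟩ := h ⟨mx, inferInstance⟩
  exact not_visible S₁ S₂ h₁ h₂ h

end Pool.Agent.Results.MP_e18349_al.AxesRing
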